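import Pool.Agent.W_4481e3_q87.GoR
import Pool.Agent.W_4481e3_tab.T9

/-!
Tree s21o9, data 7.
-/

namespace Pool.Agent.W_4481e3_rt.s21o9

open Pool.Agent.W_4481e3_q25.EvR

theorem k148 : ckO Pool.Agent.W_4481e3_tab.T9.tab 4372160 6498560 16777216 8388608 11862016 14483456 16 2621440 524288 1572864 524288 511768002 529698652 3586130 7172260 268435456 268435456 16777216 16777216 14628291 14628291 0x102000c02000c02000c03000c21203000c03000c03000c04000c203000c05070c21203000c03000c04000c2104000c03000c04000c05000c12105070c05070c205000c06000c206000c106000c21204000c04000c05000c05000c06000c61204000c05000c2505000c06000c21204000c04000c04000c05000c12104000c06000c206000c106000c206000c06000c106000c06000c07000c21212106000c06000c106000c06000c06000c21206000c07000c206000c06000c07000c2107000c07000c07000c212107000c07000c207000c07000cb21b2121829637a444721212103000c04000c204000c04000c05029c2104000c04000c04000c04000c05000cb2121205070c05070c06000c2bb21212104000c04000c04000c2104000c04000c04000c21204000c04000c2bb1b21bb2b12bb21bb2b121205029c05070c205029c05070c105029c05070c12105070c05070c1bb2b1281a8c78bfb706000cb1b28243b78bcc71205070c05070c206000c06000c06000c12827727a0997105070cb2b1206000c06000c207000cb21b207000cb1b2b1b21b21b282d7f79cd071bb2b1b2b1281e8b77e2d71280e797a7f27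 = true := by decide +kernel

theorem k150 : ckO Pool.Agent.W_4481e3_tab.T9.tab 4372160 6498560 16777216 8388608 11862016 14483456 5 2621440 524288 1572864 524288 515354132 515354132 7172260 7172260 268435456 268435456 16777216 16777216 14628291 14628291 0x102000c02000c02000c1202000c02000c03000c202000c03000c2121 = true := by decide +kernel

theorem k153 : ckO Pool.Agent.W_4481e3_tab.T9.tab 4372160 6498560 16777216 8388608 11862016 14483456 5 2621440 524288 1572864 524288 522526392 493837352 14344520 14344520 268435456 268435456 16777216 16777216 14628291 14628291 0x100000c00000c01000c201000c01070c21201000c01007c01007c121 = true := by decide +kernel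

theorem k155 : ckO Pool.Agent.W_4481e3_tab.T9.tab 4372160 6498560 16777216 8388608 11862016 14483456 10 2621440 524288 1572864 524288 493837352 508181872 14344520 28689040 268435456 268435456 16777216 16777216 14628291 14628291 0x100000c00000c00000c00000c00000c02000c12100000c00000c200000c00000c202000c102000c02000c202000c04000c102000c04000c04000c212121212 = true := by decide +kernel

end Pool.Agent.W_4481e3_rt.s21o9
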